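import Mathlib

set_option autoImplicit false

/-!
Every numerical semigroup is a quotient of a complete intersection numerical semigroup.

Idea. Let `T1 = S1/d1` and `T2 = S2/d2` with `S1`, `S2` complete intersections and `n` a nonzero
element of `T2`. Put `μ = d2 * n` and take `lam` large and coprime to `μ`. The gluing
`S = μ S1 + lam S2` is a complete intersection and, with `D = μ d1 + lam d2`, one has
`S/D = (T1 ∩ T2) ∪ (n + T2)`. Starting from the ordinary semigroups this operation reaches
every numerical semigroup, because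
`⟨A, n⟩ ∪ [N, ∞) = (⟨A⟩ ∪ [N, ∞)) ∪ (n + (⟨A, n⟩ ∪ [N - n, ∞)))`.
-/

namespace Pool.Agent.Results.MP_325c15_al.CIQuotient

/-- the minimal generating set (the atoms) of a submonoid of ℕ -/
def minGens (S : AddSubmonoid ℕ) : Set ℕ :=
  {x : ℕ | x ∈ S ∧ x ≠ 0 ∧ ∀ a ∈ S, ∀ b ∈ S, a + b = x → a = 0 ∨ b = 0}

/-- `ρ` is a presentation: the congruence it generates on `ℕ^e` is the kernel congruence of
`a ↦ ∑ i, a i * n i` -/
def IsPresentation {e : ℕ} (n : Fin e → ℕ) (ρ : Finset ((Fin e → ℕ) × (Fin e → ℕ))) : Prop :=
  ∀ a b : Fin e → ℕ,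
    addConGen (fun u v : Fin e → ℕ => (u, v) ∈ ρ) a b ↔ ∑ i, a i * n i = ∑ i, b i * n i

/-- complete intersection: the least cardinality of a presentation is the embedding dimension
minus one -/
def IsCompleteIntersection (S : AddSubmonoid ℕ) : Prop :=
  ∃ (e : ℕ) (n : Fin e → ℕ), StrictMono n ∧ Set.range n = minGens S ∧
    IsLeast {k : ℕ | ∃ ρ : Finset ((Fin e → ℕ) × (Fin e → ℕ)), ρ.card = k ∧ IsPresentation n ρ} (e - 1)


/-- value of a factorization -/
def val {ι : Type} [Fintype ι] (n : ι → ℕ) (a : ι → ℕ) : ℕ := ∑ i, a i * n i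

lemma val_add {ι : Type} [Fintype ι] (n a b : ι → ℕ) : val n (a + b) = val n a + val n b := by
  simp [val, add_mul, Finset.sum_add_distrib]

lemma val_zero {ι : Type} [Fintype ι] (n : ι → ℕ) : val n 0 = 0 := by
  simp [val]

lemma val_nsmul {ι : Type} [Fintype ι] (n a : ι → ℕ) (k : ℕ) : val n (k • a) = k * val n a := by
  simp [val, Finset.mul_sum, mul_assoc]

lemma val_single {ι : Type} [Fintype ι] [DecidableEq ι] (n : ι → ℕ) (i : ι) (k : ℕ) :
    val n (Pi.single i k) = k * n i := by
  simp [val, Pi.single_apply]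

lemma val_eq_zero {ι : Type} [Fintype ι] (n a : ι → ℕ) (hn : ∀ i, 0 < n i) (h : val n a = 0) : a = 0 := by
  funext i
  have h1 : ∀ i ∈ Finset.univ, a i * n i = 0 := by
    rw [← Finset.sum_eq_zero_iff]
    exact h
  have h2 := h1 i (Finset.mem_univ i)
  have h3 := hn i
  rcases Nat.mul_eq_zero.1 h2 with h4 | h4
  · simpa using h4
  · omega

/-- the kernel congruence of `val n` -/
def kerCon {ι : Type} [Fintype ι] (n : ι → ℕ) : AddCon (ι → ℕ) where
  r a b := val n a = val n b
  iseqv := ⟨fun _ => rfl, fun h => h.symm, fun h h' => h.trans h'⟩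
  add' := by
    intro a b c d h h'
    rw [val_add, val_add, h, h']

/-- `ρ` generates the kernel congruence -/
def Gen {ι : Type} [Fintype ι] (n : ι → ℕ) (ρ : Finset ((ι → ℕ) × (ι → ℕ))) : Prop :=
  ∀ a b : ι → ℕ, addConGen (fun u v => (u, v) ∈ ρ) a b ↔ val n a = val n b

/-- some generating family of size k whose kernel congruence is generated by at most k-1 pairs -/
def WCI (S : AddSubmonoid ℕ) : Prop :=
  ∃ (ι : Type) (_ : Fintype ι) (_ : DecidableEq ι) (n : ι → ℕ) (ρ : Finset ((ι → ℕ) × (ι → ℕ))),
    (∀ i, 0 < n i) ∧ (∀ x, x ∈ S ↔ ∃ a, val n a = x) ∧ Gen n ρ ∧ ρ.card + 1 ≤ Fintype.card ι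

/-- the gluing -/
def glue (μ : ℕ) (S1 : AddSubmonoid ℕ) (lam : ℕ) (S2 : AddSubmonoid ℕ) : AddSubmonoid ℕ where
  carrier := {z | ∃ s ∈ S1, ∃ t ∈ S2, z = μ * s + lam * t}
  zero_mem' := ⟨0, S1.zero_mem, 0, S2.zero_mem, by simp⟩
  add_mem' := by
    rintro a b ⟨s, hs, t, ht, rfl⟩ ⟨s', hs', t', ht', rfl⟩
    exact ⟨s + s', S1.add_mem hs hs', t + t', S2.add_mem ht ht', by ring⟩

lemma mem_glue {μ lam z : ℕ} {S1 S2 : AddSubmonoid ℕ} :
    z ∈ glue μ S1 lam S2 ↔ ∃ s ∈ S1, ∃ t ∈ S2, z = μ * s + lam * t := Iff.rfl

/-- key arithmetic: two representations differ by a multiple of (lam, μ) -/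
lemma rep_diff {μ lam s t s' t' : ℕ} (hl : 0 < lam) (hc : Nat.Coprime lam μ)
    (h : μ * s + lam * t = μ * s' + lam * t') (hs : s' ≤ s) :
    ∃ p, s = s' + p * lam ∧ t' = t + p * μ := by
  have h1 : μ * (s - s') = lam * (t' - t) := by
    have h2 : μ * s' ≤ μ * s := Nat.mul_le_mul_left μ hs
    have h3 : lam * t ≤ lam * t' := by omega
    rw [Nat.mul_sub, Nat.mul_sub]
    omega
  have hts : t ≤ t' := by
    have h2 : μ * s' ≤ μ * s := Nat.mul_le_mul_left μ hs
    have h3 : lam * t ≤ lam * t' := by omega
    exact Nat.le_of_mul_le_mul_left h3 hl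
  have h4 : lam ∣ (s - s') := by
    apply hc.dvd_of_dvd_mul_left
    exact ⟨_, h1⟩
  obtain ⟨p, hp⟩ := h4
  refine ⟨p, ?_, ?_⟩
  · rw [mul_comm p]; omega
  · rw [hp] at h1
    have h5 : μ * p = t' - t := by
      apply Nat.eq_of_mul_eq_mul_left hl
      rw [← h1]; ring
    rw [mul_comm p, h5]; omega

lemma glue_wci {μ lam : ℕ} {S1 S2 : AddSubmonoid ℕ} (hμ : 0 < μ) (hl : 0 < lam)
    (hc : Nat.Coprime lam μ) (h1 : WCI S1) (h2 : WCI S2) (hlS : lam ∈ S1) (hμS : μ ∈ S2) :
    WCI (glue μ S1 lam S2) := by
  classical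
  obtain ⟨ι, _, _, n, ρ, hn, hS1, hG1, hc1⟩ := h1
  obtain ⟨κ, _, _, m, σ, hm, hS2, hG2, hc2⟩ := h2
  obtain ⟨f, hf⟩ := (hS1 lam).1 hlS
  obtain ⟨g, hg⟩ := (hS2 μ).1 hμS
  let N : ι ⊕ κ → ℕ := Sum.elim (fun i => μ * n i) (fun j => lam * m j)
  let E : (ι → ℕ) → (κ → ℕ) → (ι ⊕ κ → ℕ) := fun u v => Sum.elim u v
  have hE : ∀ u v, val N (E u v) = μ * val n u + lam * val m v := by
    intro u v
    simp only [val, Fintype.sum_sum_type, N, E, Sum.elim_inl, Sum.elim_inr, Finset.mul_sum]
    congr 1
    · apply Finset.sum_congr rfl; intro i _; ring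
    · apply Finset.sum_congr rfl; intro i _; ring
  have hEadd : ∀ u v u' v', E u v + E u' v' = E (u + u') (v + v') := by
    intro u v u' v'
    funext x
    rcases x with x | x <;> simp [E]
  have hEsurj : ∀ a : ι ⊕ κ → ℕ, a = E (fun i => a (Sum.inl i)) (fun j => a (Sum.inr j)) := by
    intro a
    funext x
    rcases x with x | x <;> simp [E]
  let R : Finset ((ι ⊕ κ → ℕ) × (ι ⊕ κ → ℕ)) :=
    insert (E f 0, E 0 g) (ρ.image (fun p => (E p.1 0, E p.2 0)) ∪ σ.image (fun p => (E 0 p.1, E 0 p.2)))
  refine ⟨ι ⊕ κ, inferInstance, inferInstance, N, R, ?_, ?_, ?_, ?_⟩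
  · rintro (i | j)
    · exact Nat.mul_pos hμ (hn i)
    · exact Nat.mul_pos hl (hm j)
  · intro x
    rw [mem_glue]
    constructor
    · rintro ⟨s, hs, t, ht, rfl⟩
      obtain ⟨u, hu⟩ := (hS1 s).1 hs
      obtain ⟨v, hv⟩ := (hS2 t).1 ht
      exact ⟨E u v, by rw [hE, hu, hv]⟩
    · rintro ⟨a, ha⟩
      rw [hEsurj a, hE] at ha
      exact ⟨_, (hS1 _).2 ⟨_, rfl⟩, _, (hS2 _).2 ⟨_, rfl⟩, ha.symm⟩
  · -- generation
    set c := addConGen (fun u v => (u, v) ∈ R) with hcdef
    have hle : c ≤ kerCon N := by
      rw [hcdef]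
      apply AddCon.addConGen_le.2
      intro u v huv
      change val N u = val N v
      simp only [R, Finset.mem_insert, Finset.mem_union, Finset.mem_image, Prod.mk.injEq] at huv
      rcases huv with ⟨rfl, rfl⟩ | ⟨p, hp, rfl, rfl⟩ | ⟨p, hp, rfl, rfl⟩
      · rw [hE, hE, hf, hg, val_zero, val_zero]; ring
      · rw [hE, hE]
        have := (hG1 p.1 p.2).1 (AddConGen.Rel.of _ _ hp)
        rw [this]
      · rw [hE, hE]
        have := (hG2 p.1 p.2).1 (AddConGen.Rel.of _ _ hp)
        rw [this]
    have e1 : ∀ u u' v, val n u = val n u' → c (E u v) (E u' v) := by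
      intro u u' v h
      let F : (ι → ℕ) →+ (ι ⊕ κ → ℕ) :=
        { toFun := fun u => E u 0
          map_zero' := by funext x; rcases x with x | x <;> simp [E]
          map_add' := by intro a b; rw [hEadd]; simp }
      have h3 : addConGen (fun u v => (u, v) ∈ ρ) ≤ c.comap F F.map_add := by
        apply AddCon.addConGen_le.2
        intro a b hab
        change c (E a 0) (E b 0)
        apply AddConGen.Rel.of
        simp only [R, Finset.mem_insert, Finset.mem_union, Finset.mem_image]
        right; left
        exact ⟨(a, b), hab, rfl⟩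
      have h4 : c (E u 0) (E u' 0) := h3 ((hG1 u u').2 h)
      have h5 := c.add h4 (c.refl (E 0 v))
      rw [hEadd, hEadd] at h5
      simpa using h5
    have e2 : ∀ u v v', val m v = val m v' → c (E u v) (E u v') := by
      intro u v v' h
      let F : (κ → ℕ) →+ (ι ⊕ κ → ℕ) :=
        { toFun := fun v => E 0 v
          map_zero' := by funext x; rcases x with x | x <;> simp [E]
          map_add' := by intro a b; rw [hEadd]; simp }
      have h3 : addConGen (fun u v => (u, v) ∈ σ) ≤ c.comap F F.map_add := by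
        apply AddCon.addConGen_le.2
        intro a b hab
        change c (E 0 a) (E 0 b)
        apply AddConGen.Rel.of
        simp only [R, Finset.mem_insert, Finset.mem_union, Finset.mem_image]
        right; right
        exact ⟨(a, b), hab, rfl⟩
      have h4 : c (E 0 v) (E 0 v') := h3 ((hG2 v v').2 h)
      have h5 := c.add (c.refl (E u 0)) h4
      rw [hEadd, hEadd] at h5
      simpa using h5
    have e3 : ∀ (p : ℕ) u v, c (E (u + p • f) v) (E u (v + p • g)) := by
      intro p
      induction p with
      | zero => intro u v; simpa using c.refl (E u v)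
      | succ p ih =>
        intro u v
        have h6 : c (E f 0) (E 0 g) := by
          apply AddConGen.Rel.of
          simp [R]
        have h7 := c.add (c.refl (E (u + p • f) v)) h6
        rw [hEadd, hEadd] at h7
        have h8 := ih u (v + g)
        have h9 : c (E (u + p • f + f) (v + 0)) (E (u + p • f + 0) (v + g)) := h7
        rw [add_zero, add_zero] at h9
        have h10 := c.trans h9 h8
        rw [succ_nsmul, succ_nsmul, ← add_assoc]
        rw [add_assoc v, add_comm g (p • g)] at h10
        exact h10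
    have main : ∀ a b, val N a = val N b → val n (fun i => b (Sum.inl i)) ≤ val n (fun i => a (Sum.inl i)) → c a b := by
      intro a b hab hle
      rw [hEsurj a, hEsurj b] at hab ⊢
      rw [hE, hE] at hab
      set u := fun i => a (Sum.inl i)
      set v := fun j => a (Sum.inr j)
      set u' := fun i => b (Sum.inl i)
      set v' := fun j => b (Sum.inr j)
      obtain ⟨p, hp1, hp2⟩ := rep_diff hl hc hab hle
      have h1 : c (E u v) (E (u' + p • f) v) := by
        apply e1
        rw [val_add, val_nsmul, hf, hp1]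
      have h2 := e3 p u' v
      have h3 : c (E u' (v + p • g)) (E u' v') := by
        apply e2
        rw [val_add, val_nsmul, hg, hp2]
      exact c.trans h1 (c.trans h2 h3)
    intro a b
    constructor
    · intro h
      exact hle h
    · intro h
      rcases le_total (val n (fun i => b (Sum.inl i))) (val n (fun i => a (Sum.inl i))) with h1 | h1
      · exact main a b h h1
      · exact c.symm (main b a h.symm h1)
  · calc R.card + 1 ≤ ((ρ.image (fun p => (E p.1 0, E p.2 0)) ∪ σ.image (fun p => (E 0 p.1, E 0 p.2))).card + 1) + 1 := by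
          apply Nat.succ_le_succ
          exact Finset.card_insert_le _ _
      _ ≤ (ρ.card + σ.card + 1) + 1 := by
          apply Nat.succ_le_succ; apply Nat.succ_le_succ
          exact (Finset.card_union_le _ _).trans (add_le_add Finset.card_image_le Finset.card_image_le)
      _ ≤ Fintype.card (ι ⊕ κ) := by
          rw [Fintype.card_sum]; omega



/-- removing a redundant generator -/
lemma remove_gen {ι : Type} [Fintype ι] [DecidableEq ι] (n : ι → ℕ) (hn : ∀ i, 0 < n i)
    (ρ : Finset ((ι → ℕ) × (ι → ℕ))) (hG : Gen n ρ) (i0 : ι) (f : ι → ℕ) (hf0 : f i0 = 0)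
    (hf : val n f = n i0) :
    ∃ ρ' : Finset (({j : ι // j ≠ i0} → ℕ) × ({j : ι // j ≠ i0} → ℕ)),
      Gen (fun j : {j : ι // j ≠ i0} => n j) ρ' ∧ ρ'.card + 1 ≤ ρ.card := by
  classical
  set e0 : ι → ℕ := Pi.single i0 1 with he0
  have hve0 : val n e0 = n i0 := by rw [he0, val_single, one_mul]
  have hne : e0 ≠ f := by
    intro h
    have := congrFun h i0
    rw [he0, Pi.single_eq_same, hf0] at this
    omega
  have hker : ∀ u v, (u, v) ∈ ρ → val n u = val n v := fun u v h => (hG u v).1 (AddConGen.Rel.of _ _ h)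
  -- a pair involving e0
  have hex : ∃ p ∈ ρ, (p.1 = e0 ∧ p.2 ≠ e0) ∨ (p.2 = e0 ∧ p.1 ≠ e0) := by
    by_contra hcon
    push Not at hcon
    let c' : AddCon (ι → ℕ) :=
      { r := fun a b => val n a = val n b ∧ (a = e0 ↔ b = e0)
        iseqv := ⟨fun _ => ⟨rfl, Iff.rfl⟩, fun h => ⟨h.1.symm, h.2.symm⟩,
          fun h h' => ⟨h.1.trans h'.1, h.2.trans h'.2⟩⟩
        add' := by
          have aux : ∀ a b c d : ι → ℕ, (val n a = val n b ∧ (a = e0 ↔ b = e0)) →
              (val n c = val n d ∧ (c = e0 ↔ d = e0)) → a + c = e0 → b + d = e0 := by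
            intro a b c d hab hcd h
            have h1 : a i0 + c i0 = 1 := by
              have := congrFun h i0
              rw [he0, Pi.single_eq_same] at this
              exact this
            have h2 : ∀ j, j ≠ i0 → a j = 0 ∧ c j = 0 := by
              intro j hj
              have := congrFun h j
              rw [he0, Pi.single_eq_of_ne hj] at this
              simp only [Pi.add_apply] at this
              omega
            rcases Nat.eq_zero_or_pos (a i0) with h3 | h3
            · have ha0 : a = 0 := by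
                funext j
                by_cases hj : j = i0
                · rw [hj, h3]; rfl
                · rw [(h2 j hj).1]; rfl
              have hce : c = e0 := by rw [← h, ha0, zero_add]
              have hb0 : b = 0 := by
                apply val_eq_zero n b hn
                rw [← hab.1, ha0, val_zero]
              rw [hb0, zero_add]
              exact hcd.2.1 hce
            · have hc0 : c = 0 := by
                funext j
                by_cases hj : j = i0
                · rw [hj]; simp only [Pi.zero_apply]; omega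
                · rw [(h2 j hj).2]; rfl
              have hae : a = e0 := by rw [← h, hc0, add_zero]
              have hd0 : d = 0 := by
                apply val_eq_zero n d hn
                rw [← hcd.1, hc0, val_zero]
              rw [hd0, add_zero]
              exact hab.2.1 hae
          intro a b c d hab hcd
          refine ⟨by rw [val_add, val_add, hab.1, hcd.1], aux a b c d hab hcd, ?_⟩
          exact aux b a d c ⟨hab.1.symm, hab.2.symm⟩ ⟨hcd.1.symm, hcd.2.symm⟩ }
    have hle : addConGen (fun u v => (u, v) ∈ ρ) ≤ c' := by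
      apply AddCon.addConGen_le.2
      intro u v huv
      change val n u = val n v ∧ (u = e0 ↔ v = e0)
      refine ⟨hker u v huv, ?_, ?_⟩
      · intro h
        exact (hcon (u, v) huv).1 h
      · intro h
        exact (hcon (u, v) huv).2 h
    have h1 : addConGen (fun u v => (u, v) ∈ ρ) e0 f := (hG e0 f).2 (by rw [hve0, hf])
    have h2 : c' e0 f := hle h1
    exact hne (h2.2.1 rfl).symm
  obtain ⟨p, hp, hpe⟩ := hex
  -- the other member of the pair
  obtain ⟨s, hs, hsne, hsp⟩ : ∃ s : ι → ℕ, val n s = n i0 ∧ s ≠ e0 ∧ (p = (e0, s) ∨ p = (s, e0)) := by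
    have hk := hker p.1 p.2 hp
    rcases hpe with ⟨h1, h2⟩ | ⟨h1, h2⟩
    · exact ⟨p.2, by rw [← hk, h1, hve0], h2, Or.inl (by rw [← h1])⟩
    · exact ⟨p.1, by rw [hk, h1, hve0], h2, Or.inr (by rw [← h1])⟩
  have hs0 : s i0 = 0 := by
    by_contra hcon
    apply hsne
    have h1 : s = e0 + (s - e0) := by
      funext j
      by_cases hj : j = i0
      · subst hj
        simp only [he0, Pi.add_apply, Pi.sub_apply, Pi.single_eq_same]; omega
      · simp only [he0, Pi.add_apply, Pi.sub_apply, Pi.single_eq_of_ne hj]; omega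
    have h2 : val n (s - e0) = 0 := by
      have := congrArg (val n) h1
      rw [val_add, hve0, hs] at this
      omega
    rw [h1, val_eq_zero n _ hn h2, add_zero]
  -- projection
  let π : (ι → ℕ) →+ ({j : ι // j ≠ i0} → ℕ) :=
    { toFun := fun a j => a j + a i0 * s j
      map_zero' := by funext j; simp
      map_add' := by intro a b; funext j; simp only [Pi.add_apply]; ring }
  have hπ : ∀ a (j : {j : ι // j ≠ i0}), π a j = a j + a i0 * s j := fun _ _ => rfl
  have hsum : ∀ (F : ι → ℕ), ∑ i, F i = F i0 + ∑ j : {j : ι // j ≠ i0}, F j := by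
    intro F
    rw [← Finset.add_sum_erase _ _ (Finset.mem_univ i0)]
    congr 1
    apply Finset.sum_subtype
    intro x
    simp
  set n' : {j : ι // j ≠ i0} → ℕ := fun j => n j with hn'
  have hval' : ∀ a, val n' (π a) = val n a := by
    intro a
    have h1 : val n a = a i0 * n i0 + ∑ j : {j : ι // j ≠ i0}, a j * n j := hsum (fun i => a i * n i)
    have h2 : n i0 = ∑ j : {j : ι // j ≠ i0}, s j * n j := by
      rw [← hs]
      have := hsum (fun i => s i * n i)
      simp only [hs0, zero_mul, zero_add] at this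
      exact this
    rw [h1]
    conv_rhs => rw [h2]
    rw [Finset.mul_sum, ← Finset.sum_add_distrib]
    unfold val
    apply Finset.sum_congr rfl
    intro j _
    rw [hπ]; ring
  have hπe : π e0 = π s := by
    funext j
    rw [hπ, hπ, hs0, he0, Pi.single_eq_same, Pi.single_eq_of_ne j.2]
    ring
  refine ⟨(ρ.erase p).image (fun q => (π q.1, π q.2)), ?_, ?_⟩
  · set c := addConGen (fun u v => (u, v) ∈ (ρ.erase p).image (fun q => (π q.1, π q.2))) with hc
    intro a b
    constructor
    · intro h
      have hle : c ≤ kerCon n' := by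
        rw [hc]
        apply AddCon.addConGen_le.2
        intro u v huv
        change val n' u = val n' v
        simp only [Finset.mem_image, Finset.mem_erase] at huv
        obtain ⟨q, ⟨_, hq⟩, hq2⟩ := huv
        rw [Prod.mk.injEq] at hq2
        rw [← hq2.1, ← hq2.2, hval', hval']
        exact hker _ _ hq
      exact hle h
    · intro h
      let ext : ({j : ι // j ≠ i0} → ℕ) → (ι → ℕ) := fun a i => if hi : i = i0 then 0 else a ⟨i, hi⟩
      have hext : ∀ a, π (ext a) = a := by
        intro a
        funext j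
        rw [hπ]
        have h1 : ext a i0 = 0 := by simp [ext]
        have h2 : ext a j = a j := by
          simp only [ext]
          rw [dif_neg j.2]
        rw [h1, h2]; ring
      have hle : addConGen (fun u v => (u, v) ∈ ρ) ≤ c.comap π π.map_add := by
        apply AddCon.addConGen_le.2
        intro u v huv
        change c (π u) (π v)
        by_cases hup : (u, v) = p
        · rcases hsp with h1 | h1
          · rw [h1, Prod.mk.injEq] at hup
            rw [hup.1, hup.2, hπe]
            exact c.refl _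
          · rw [h1, Prod.mk.injEq] at hup
            rw [hup.1, hup.2, hπe]
            exact c.refl _
        · apply AddConGen.Rel.of
          rw [Finset.mem_image]
          exact ⟨(u, v), Finset.mem_erase.2 ⟨hup, huv⟩, rfl⟩
      have h1 : addConGen (fun u v => (u, v) ∈ ρ) (ext a) (ext b) := by
        rw [hG, ← hval', ← hval', hext, hext]
        exact h
      have h2 : c (π (ext a)) (π (ext b)) := hle h1
      rw [hext, hext] at h2
      exact h2
  · calc _ ≤ (ρ.erase p).card + 1 := Nat.succ_le_succ Finset.card_image_le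
      _ = ρ.card := Finset.card_erase_add_one hp

/-- minimal (irredundant) version -/
lemma exists_irredundant (S : AddSubmonoid ℕ) (h : WCI S) :
    ∃ (ι : Type) (_ : Fintype ι) (_ : DecidableEq ι) (n : ι → ℕ) (ρ : Finset ((ι → ℕ) × (ι → ℕ))),
    (∀ i, 0 < n i) ∧ (∀ x, x ∈ S ↔ ∃ a, val n a = x) ∧ Gen n ρ ∧ ρ.card + 1 ≤ Fintype.card ι ∧
    (∀ (i : ι) (f : ι → ℕ), f i = 0 → val n f ≠ n i) := by
  classical
  obtain ⟨ι, i1, i2, n, ρ, hn, hS, hG, hc⟩ := h
  induction hk : Fintype.card ι using Nat.strong_induction_on generalizing ι with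
  | _ k ih =>
    by_cases hirr : ∀ (i : ι) (f : ι → ℕ), f i = 0 → val n f ≠ n i
    · exact ⟨ι, i1, i2, n, ρ, hn, hS, hG, hc, hirr⟩
    · push Not at hirr
      obtain ⟨i0, f, hf0, hf⟩ := hirr
      obtain ⟨ρ', hG', hc'⟩ := remove_gen n hn ρ hG i0 f hf0 hf
      have hcard : Fintype.card {j : ι // j ≠ i0} = Fintype.card ι - 1 := by
        rw [Fintype.card_subtype_compl, Fintype.card_subtype_eq]
      have hpos : 0 < Fintype.card ι := Fintype.card_pos_iff.2 ⟨i0⟩
      refine ih (Fintype.card {j : ι // j ≠ i0}) (by omega) {j : ι // j ≠ i0} inferInstance inferInstance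
        (fun j => n j) ρ' (fun j => hn j) ?_ hG' (by omega) rfl
      intro x
      rw [hS]
      constructor
      · rintro ⟨a, ha⟩
        refine ⟨fun j => a j + a i0 * f j, ?_⟩
        have hsum : ∀ (F : ι → ℕ), ∑ i, F i = F i0 + ∑ j : {j : ι // j ≠ i0}, F j := by
          intro F
          rw [← Finset.add_sum_erase _ _ (Finset.mem_univ i0)]
          congr 1
          apply Finset.sum_subtype
          intro x
          simp
        have h1 : val n a = a i0 * n i0 + ∑ j : {j : ι // j ≠ i0}, a j * n j := hsum (fun i => a i * n i)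
        have h2 : n i0 = ∑ j : {j : ι // j ≠ i0}, f j * n j := by
          rw [← hf]
          have := hsum (fun i => f i * n i)
          simp only [hf0, zero_mul, zero_add] at this
          exact this
        rw [← ha, h1]
        conv_rhs => rw [h2]
        rw [Finset.mul_sum, ← Finset.sum_add_distrib]
        unfold val
        apply Finset.sum_congr rfl
        intro j _
        ring
      · rintro ⟨a, ha⟩
        refine ⟨fun i => if hi : i = i0 then 0 else a ⟨i, hi⟩, ?_⟩
        rw [← ha]
        unfold val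
        rw [← Finset.add_sum_erase _ _ (Finset.mem_univ i0)]
        dsimp only
        rw [dif_pos rfl, zero_mul, zero_add]
        rw [Finset.sum_subtype (p := fun j => j ≠ i0) (Finset.univ.erase i0) (by simp)]
        apply Finset.sum_congr rfl
        intro j _
        rw [dif_neg j.2]

/-- the natural numbers -/
lemma top_wci : WCI ⊤ := by
  refine ⟨Unit, inferInstance, inferInstance, fun _ => 1, ∅, fun _ => one_pos, ?_, ?_, by simp⟩
  · intro x
    refine ⟨fun _ => ⟨fun _ => x, by simp [val]⟩, fun _ => AddSubmonoid.mem_top x⟩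
  · intro a b
    constructor
    · intro h
      have hle : addConGen (fun u v : Unit → ℕ => (u, v) ∈ (∅ : Finset ((Unit → ℕ) × (Unit → ℕ)))) ≤ kerCon (fun _ : Unit => 1) := by
        apply AddCon.addConGen_le.2
        intro u v huv
        simp at huv
      exact hle h
    · intro h
      have : a = b := by
        funext x
        simpa [val] using h
      rw [this]
      exact (addConGen _).refl b

/-- sets that are quotients of (weak) complete intersections, the quotient being cofinite -/
def K (T : Set ℕ) : Prop :=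
  ∃ (S : AddSubmonoid ℕ) (d : ℕ), {n : ℕ | n ∉ S}.Finite ∧ WCI S ∧ 1 ≤ d ∧ ∀ x : ℕ, x ∈ T ↔ d * x ∈ S

lemma cofinite_bound {S : AddSubmonoid ℕ} (h : {n : ℕ | n ∉ S}.Finite) : ∃ C, ∀ n, C ≤ n → n ∈ S := by
  obtain ⟨b, hb⟩ := h.bddAbove
  refine ⟨b + 1, fun n hn => ?_⟩
  by_contra hcon
  have := hb hcon
  omega

lemma glue_cofinite {μ lam : ℕ} {S1 S2 : AddSubmonoid ℕ} (hl : 0 < lam)
    (hc : Nat.Coprime lam μ) (h1 : {n : ℕ | n ∉ S1}.Finite) (h2 : {n : ℕ | n ∉ S2}.Finite) :
    {n : ℕ | n ∉ glue μ S1 lam S2}.Finite := by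
  obtain ⟨C1, hC1⟩ := cofinite_bound h1
  obtain ⟨C2, hC2⟩ := cofinite_bound h2
  apply Set.Finite.subset (Set.finite_lt_nat (μ * (C1 * lam + lam) + lam * C2))
  intro z hz
  simp only [Set.mem_ofPred_eq] at hz ⊢
  by_contra hlt
  push Not at hlt
  apply hz
  obtain ⟨r, hr1, hr2⟩ := Nat.exists_mul_mod_eq_of_coprime z hc.symm hl.ne'
  set s := r + C1 * lam with hs
  have hsC : C1 ≤ s := by
    have : C1 * 1 ≤ C1 * lam := Nat.mul_le_mul_left C1 hl
    omega
  have hmod : (μ * s) % lam = z % lam := by
    rw [hs, mul_add, ← mul_assoc, Nat.add_mul_mod_self_right, hr2]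
  have hle : μ * s + lam * C2 ≤ z := by
    refine le_trans ?_ hlt
    apply add_le_add_left
    apply Nat.mul_le_mul_left
    omega
  have hdvd : lam ∣ z - μ * s := by
    rw [← Nat.modEq_iff_dvd' (by omega)]
    exact hmod
  obtain ⟨t, ht⟩ := hdvd
  refine ⟨s, hC1 s hsC, t, hC2 t ?_, by omega⟩
  apply Nat.le_of_mul_le_mul_left _ hl
  omega

lemma K_univ : K Set.univ :=
  ⟨⊤, 1, by simp, top_wci, le_refl 1, by intro x; simp⟩

/-- the closure property -/
lemma K_step {T1 T2 : Set ℕ} (h1 : K T1) (h2 : K T2) (n : ℕ) (hn : 0 < n) (hnT : n ∈ T2) :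
    K {z | (z ∈ T1 ∧ z ∈ T2) ∨ (n ≤ z ∧ z - n ∈ T2)} := by
  obtain ⟨S1, d1, hf1, hw1, hd1, hT1⟩ := h1
  obtain ⟨S2, d2, hf2, hw2, hd2, hT2⟩ := h2
  obtain ⟨C1, hC1⟩ := cofinite_bound hf1
  obtain ⟨C2, hC2⟩ := cofinite_bound hf2
  set μ := d2 * n with hμ
  have hμpos : 0 < μ := Nat.mul_pos hd2 hn
  set lam := μ * (C1 + d1 * C2 + 1) + 1 with hlam
  have hlpos : 0 < lam := Nat.succ_pos _
  have hcop : Nat.Coprime lam μ := by
    rw [hlam, Nat.coprime_mul_left_add_left]
    exact Nat.coprime_one_left μ
  have hlC : C1 + d1 * C2 + 1 < lam := by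
    have : 1 * (C1 + d1 * C2 + 1) ≤ μ * (C1 + d1 * C2 + 1) := Nat.mul_le_mul_right _ hμpos
    omega
  have hlS1 : lam ∈ S1 := hC1 _ (by omega)
  have hμS2 : μ ∈ S2 := (hT2 n).1 hnT
  refine ⟨glue μ S1 lam S2, μ * d1 + lam * d2, glue_cofinite hlpos hcop hf1 hf2,
    glue_wci hμpos hlpos hcop hw1 hw2 hlS1 hμS2, ?_, ?_⟩
  · have : 1 ≤ lam * d2 := Nat.mul_pos hlpos hd2
    omega
  intro z
  rw [mem_glue]
  constructor
  · rintro (⟨hz1, hz2⟩ | ⟨hnz, hz⟩)
    · exact ⟨d1 * z, (hT1 z).1 hz1, d2 * z, (hT2 z).1 hz2, by ring⟩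
    · refine ⟨d1 * z + lam, hC1 _ (by omega), d2 * (z - n), (hT2 _).1 hz, ?_⟩
      obtain ⟨y, rfl⟩ : ∃ y, z = y + n := ⟨z - n, by omega⟩
      rw [Nat.add_sub_cancel, hμ]
      ring
  · rintro ⟨s, hs, t, ht, hst⟩
    have heq : μ * s + lam * t = μ * (d1 * z) + lam * (d2 * z) := by rw [← hst]; ring
    rcases le_total (d1 * z) s with hle | hle
    · obtain ⟨p, hp1, hp2⟩ := rep_diff hlpos hcop heq hle
      -- s = d1 z + p lam, d2 z = t + p μ
      rcases Nat.eq_zero_or_pos p with hp | hp
      · subst hp
        left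
        rw [zero_mul, add_zero] at hp1 hp2
        exact ⟨(hT1 z).2 (hp1 ▸ hs), (hT2 z).2 (hp2 ▸ ht)⟩
      · right
        have h3 : d2 * (p * n) ≤ d2 * z := by
          rw [hp2, hμ]
          have : d2 * (p * n) = p * (d2 * n) := by ring
          omega
        have h4 : p * n ≤ z := Nat.le_of_mul_le_mul_left h3 hd2
        have h5 : n ≤ p * n := Nat.le_mul_of_pos_left n hp
        have h6 : t = d2 * (z - p * n) := by
          rw [Nat.mul_sub]
          have : d2 * (p * n) = p * (d2 * n) := by ring
          rw [hμ] at hp2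
          omega
        refine ⟨by omega, ?_⟩
        rw [hT2]
        have h7 : d2 * (z - n) = t + (p - 1) * μ := by
          obtain ⟨q, rfl⟩ : ∃ q, p = q + 1 := ⟨p - 1, by omega⟩
          obtain ⟨y, rfl⟩ : ∃ y, z = y + (q + 1) * n := ⟨z - (q + 1) * n, by omega⟩
          rw [h6, Nat.add_sub_cancel, Nat.add_sub_cancel, hμ]
          have : y + (q + 1) * n - n = y + q * n := by
            rw [add_mul, one_mul]; omega
          rw [this]; ring
        rw [h7]
        apply S2.add_mem ht
        have := AddSubmonoid.nsmul_mem S2 hμS2 (p - 1)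
        simpa using this
    · obtain ⟨p, hp1, hp2⟩ := rep_diff hlpos hcop heq.symm hle
      -- d1 z = s + p lam, t = d2 z + p μ
      left
      rcases Nat.eq_zero_or_pos p with hp | hp
      · subst hp
        rw [zero_mul, add_zero] at hp1 hp2
        exact ⟨(hT1 z).2 (hp1 ▸ hs), (hT2 z).2 (hp2 ▸ ht)⟩
      · constructor
        · rw [hT1, hp1]
          apply S1.add_mem hs
          have := AddSubmonoid.nsmul_mem S1 hlS1 p
          simpa using this
        · rw [hT2]
          apply hC2
          have h8 : lam ≤ d1 * z := by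
            have : lam ≤ p * lam := Nat.le_mul_of_pos_left lam hp
            omega
          have h9 : d1 * C2 < d1 * z := by omega
          have h10 : C2 < z := Nat.lt_of_mul_lt_mul_left h9
          have h11 : z ≤ d2 * z := Nat.le_mul_of_pos_left z hd2
          omega

/-- the ordinary semigroups -/
lemma K_ordinary (N : ℕ) : K {z | z = 0 ∨ N ≤ z} := by
  rcases Nat.eq_zero_or_pos N with hN | hN
  · subst hN
    have : {z : ℕ | z = 0 ∨ 0 ≤ z} = Set.univ := by ext z; simp
    rw [this]; exact K_univ
  · have hcop : Nat.Coprime N (N + 1) := by simp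
    have h1 : K {z : ℕ | z ∈ glue (N + 1) ⊤ N ⊤} :=
      ⟨glue (N + 1) ⊤ N ⊤, 1, glue_cofinite hN hcop (by simp) (by simp),
        glue_wci (Nat.succ_pos N) hN hcop top_wci top_wci (AddSubmonoid.mem_top _) (AddSubmonoid.mem_top _),
        le_refl 1, by intro x; simp⟩
    have h2 := K_step h1 K_univ N hN (Set.mem_univ N)
    have h3 : {z : ℕ | (z ∈ {z : ℕ | z ∈ glue (N + 1) ⊤ N ⊤} ∧ z ∈ Set.univ) ∨ (N ≤ z ∧ z - N ∈ Set.univ)}
        = {z | z = 0 ∨ N ≤ z} := by
      ext z
      simp only [Set.mem_ofPred_eq, Set.mem_univ, and_true]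
      constructor
      · rintro (h | h)
        · obtain ⟨s, -, t, -, rfl⟩ := mem_glue.1 h
          rcases Nat.eq_zero_or_pos s with hs | hs
          · rcases Nat.eq_zero_or_pos t with ht | ht
            · left; rw [hs, ht]; simp
            · right
              have : N * 1 ≤ N * t := Nat.mul_le_mul_left N ht
              omega
          · right
            have : (N + 1) * 1 ≤ (N + 1) * s := Nat.mul_le_mul_left _ hs
            omega
        · right; exact h
      · rintro (h | h)
        · left; rw [h]; exact (glue (N + 1) ⊤ N ⊤).zero_mem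
        · right; exact h
    rw [h3] at h2
    exact h2

lemma K_closure (A : List ℕ) (hA : ∀ a ∈ A, 0 < a) (N : ℕ) :
    K {z | z ∈ AddSubmonoid.closure {x | x ∈ A} ∨ N ≤ z} := by
  induction A generalizing N with
  | nil =>
    have : {z : ℕ | z ∈ AddSubmonoid.closure {x : ℕ | x ∈ ([] : List ℕ)} ∨ N ≤ z} = {z | z = 0 ∨ N ≤ z} := by
      ext z
      simp
    rw [this]
    exact K_ordinary N
  | cons n A ih =>
    have hn : 0 < n := hA n (by simp)
    have ihA := ih (fun a ha => hA a (by simp [ha]))
    have hset : {x : ℕ | x ∈ n :: A} = insert n {x | x ∈ A} := by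
      ext x; simp
    have hsub : AddSubmonoid.closure {x | x ∈ A} ≤ AddSubmonoid.closure {x | x ∈ n :: A} := by
      apply AddSubmonoid.closure_mono
      intro x hx
      simp only [Set.mem_ofPred_eq] at hx ⊢
      exact List.mem_cons_of_mem n hx
    have hnmem : n ∈ AddSubmonoid.closure {x | x ∈ n :: A} := by
      apply AddSubmonoid.subset_closure
      simp
    induction N using Nat.strong_induction_on with
    | _ N ihN =>
      rcases Nat.eq_zero_or_pos N with hN | hN
      · subst hN
        have : {z : ℕ | z ∈ AddSubmonoid.closure {x : ℕ | x ∈ n :: A} ∨ 0 ≤ z} = Set.univ := by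
          ext z; simp
        rw [this]; exact K_univ
      · have h1 := ihA N
        have h2 := ihN (N - n) (by omega)
        have h3 := K_step h1 h2 n hn (Or.inl hnmem)
        convert h3 using 1
        ext z
        simp only [Set.mem_ofPred_eq]
        constructor
        · rintro (h | h)
          · rw [hset, Set.insert_eq, AddSubmonoid.closure_union, AddSubmonoid.mem_sup] at h
            obtain ⟨y, hy, w, hw, hyw⟩ := h
            rw [AddSubmonoid.mem_closure_singleton] at hy
            obtain ⟨k, hk⟩ := hy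
            rcases Nat.eq_zero_or_pos k with hk0 | hk0
            · left
              rw [hk0, zero_smul] at hk
              have hzw : z = w := by omega
              rw [hzw]
              exact ⟨Or.inl hw, Or.inl (hsub hw)⟩
            · right
              rw [smul_eq_mul] at hk
              have h5 : n ≤ k * n := Nat.le_mul_of_pos_left n hk0
              refine ⟨by omega, Or.inl ?_⟩
              have h6 : z - n = (k - 1) • n + w := by
                rw [smul_eq_mul, Nat.sub_mul, one_mul]
                omega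
              rw [h6]
              exact AddSubmonoid.add_mem _ (AddSubmonoid.nsmul_mem _ hnmem _) (hsub hw)
          · left
            exact ⟨Or.inr h, Or.inr (by omega)⟩
        · rintro (⟨h | h, -⟩ | ⟨hnz, h | h⟩)
          · exact Or.inl (hsub h)
          · exact Or.inr h
          · left
            have h6 : z = n + (z - n) := by omega
            rw [h6]
            exact AddSubmonoid.add_mem _ hnmem h
          · right; omega

lemma K_all (T : AddSubmonoid ℕ) (hT : {n : ℕ | n ∉ T}.Finite) : K {z | z ∈ T} := by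
  classical
  obtain ⟨C, hC⟩ := cofinite_bound hT
  let A : List ℕ := (List.range C).filter (fun x => x ∈ T ∧ 0 < x)
  have hA : ∀ a ∈ A, 0 < a := by
    intro a ha
    simp only [A, List.mem_filter, decide_eq_true_eq] at ha
    exact ha.2.2
  have h := K_closure A hA C
  convert h using 1
  ext z
  simp only [Set.mem_ofPred_eq]
  constructor
  · intro hz
    by_cases hzC : C ≤ z
    · exact Or.inr hzC
    · left
      rcases Nat.eq_zero_or_pos z with h0 | h0
      · rw [h0]; exact AddSubmonoid.zero_mem _
      · apply AddSubmonoid.subset_closure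
        simp only [A, Set.mem_ofPred_eq, List.mem_filter, List.mem_range, decide_eq_true_eq]
        exact ⟨by omega, hz, h0⟩
  · rintro (hz | hz)
    · have : AddSubmonoid.closure {x | x ∈ A} ≤ T := by
        rw [AddSubmonoid.closure_le]
        intro x hx
        simp only [A, Set.mem_ofPred_eq, List.mem_filter, decide_eq_true_eq] at hx
        exact hx.2.1
      exact this hz
    · exact hC z hz

lemma lower_bound {e : ℕ} (n : Fin e → ℕ) (hn : ∀ i, 0 < n i)
    (ρ : Finset ((Fin e → ℕ) × (Fin e → ℕ))) (h : IsPresentation n ρ) : e - 1 ≤ ρ.card := by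
  classical
  rcases Nat.eq_zero_or_pos e with he | he
  · omega
  let D : ((Fin e → ℕ) × (Fin e → ℕ)) → (Fin e → ℚ) := fun p i => (p.1 i : ℚ) - (p.2 i : ℚ)
  let W : Submodule ℚ (Fin e → ℚ) := Submodule.span ℚ ((ρ.image D : Finset (Fin e → ℚ)) : Set (Fin e → ℚ))
  have hW : Module.finrank ℚ W ≤ ρ.card :=
    (finrank_span_finset_le_card (ρ.image D)).trans Finset.card_image_le
  let c' : AddCon (Fin e → ℕ) :=
    { r := fun a b => D (a, b) ∈ W
      iseqv := by
        refine ⟨?_, ?_, ?_⟩
        · intro a
          have : D (a, a) = 0 := by funext i; simp [D]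
          rw [this]; exact W.zero_mem
        · intro a b hab
          have : D (b, a) = - D (a, b) := by funext i; simp [D]
          rw [this]; exact W.neg_mem hab
        · intro a b c hab hbc
          have : D (a, c) = D (a, b) + D (b, c) := by funext i; simp [D]
          rw [this]; exact W.add_mem hab hbc
      add' := by
        intro a b c d hab hcd
        have : D (a + c, b + d) = D (a, b) + D (c, d) := by
          funext i; simp only [D, Pi.add_apply, Nat.cast_add]; ring
        rw [this]; exact W.add_mem hab hcd }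
  have hle : addConGen (fun u v : Fin e → ℕ => (u, v) ∈ ρ) ≤ c' := by
    apply AddCon.addConGen_le.2
    intro u v huv
    change D (u, v) ∈ W
    apply Submodule.subset_span
    simp only [Finset.coe_image]
    exact ⟨(u, v), huv, rfl⟩
  have hmem : ∀ a b : Fin e → ℕ, ∑ i, a i * n i = ∑ i, b i * n i → D (a, b) ∈ W := by
    intro a b hab
    have h1 := (h a b).2 hab
    exact hle h1
  let L : (Fin e → ℚ) →ₗ[ℚ] ℚ :=
    { toFun := fun x => ∑ i, x i * (n i : ℚ)
      map_add' := by intro x y; simp [add_mul, Finset.sum_add_distrib]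
      map_smul' := by intro r x; simp [Finset.mul_sum, mul_assoc] }
  let i0 : Fin e := ⟨0, he⟩
  have hn0 : (n i0 : ℚ) ≠ 0 := by
    have := hn i0
    exact_mod_cast this.ne'
  have hker : LinearMap.ker L ≤ W := by
    intro x hx
    have hx0 : ∑ i, x i * (n i : ℚ) = 0 := hx
    have hdec : x = ∑ i, (x i / (n i0 : ℚ)) • D (Pi.single i (n i0), Pi.single i0 (n i)) := by
      funext j
      rw [Finset.sum_apply]
      simp only [D, Pi.smul_apply, smul_eq_mul, mul_sub]
      rw [Finset.sum_sub_distrib]
      have e1 : ∑ i, x i / (n i0 : ℚ) * ((Pi.single i (n i0) : Fin e → ℕ) j : ℚ) = x j := by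
        rw [Finset.sum_eq_single j]
        · rw [Pi.single_eq_same]; field_simp
        · intro b _ hb
          rw [Pi.single_eq_of_ne (Ne.symm hb)]; simp
        · intro hj; exact absurd (Finset.mem_univ j) hj
      have e2 : ∑ i, x i / (n i0 : ℚ) * ((Pi.single i0 (n i) : Fin e → ℕ) j : ℚ) = 0 := by
        by_cases hj : j = i0
        · subst hj
          simp only [Pi.single_eq_same]
          have : ∑ i, x i / (n i0 : ℚ) * (n i : ℚ) = (∑ i, x i * (n i : ℚ)) / (n i0 : ℚ) := by
            rw [Finset.sum_div]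
            apply Finset.sum_congr rfl
            intro i _
            ring
          rw [this, hx0, zero_div]
        · apply Finset.sum_eq_zero
          intro i _
          rw [Pi.single_eq_of_ne hj]; simp
      rw [e1, e2, sub_zero]
    rw [hdec]
    apply Submodule.sum_mem
    intro i _
    apply Submodule.smul_mem
    apply hmem
    simp only [Pi.single_apply, ite_mul, zero_mul, Finset.sum_ite_eq', Finset.mem_univ, if_true]
    ring
  have hrank := LinearMap.finrank_range_add_finrank_ker L
  have hrange : Module.finrank ℚ (LinearMap.range L) ≤ 1 := by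
    calc _ ≤ Module.finrank ℚ ℚ := Submodule.finrank_le _
      _ = 1 := Module.finrank_self ℚ
  have hk : Module.finrank ℚ (LinearMap.ker L) ≤ Module.finrank ℚ W := Submodule.finrank_mono hker
  have hfull : Module.finrank ℚ (Fin e → ℚ) = e := by simp
  omega

lemma wci_isCI (S : AddSubmonoid ℕ) (h : WCI S) : IsCompleteIntersection S := by
  classical
  obtain ⟨ι, _, _, n, ρ, hn, hS, hG, hc, hirr⟩ := exists_irredundant S h
  have hinj : Function.Injective n := by
    intro i j hij
    by_contra hne
    apply hirr i (Pi.single j 1)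
    · rw [Pi.single_eq_of_ne hne]
    · rw [val_single, one_mul, hij]
  have hval_ge : ∀ (a : ι → ℕ) (i : ι), 0 < a i → ∃ b, val n a = n i + val n b ∧ a = Pi.single i 1 + b := by
    intro a i hai
    refine ⟨a - Pi.single i 1, ?_, ?_⟩
    · have h1 : a = Pi.single i 1 + (a - Pi.single i 1) := by
        funext j
        by_cases hj : j = i
        · subst hj
          simp only [Pi.add_apply, Pi.sub_apply, Pi.single_eq_same]; omega
        · simp only [Pi.add_apply, Pi.sub_apply, Pi.single_eq_of_ne hj]; omega
      conv_lhs => rw [h1]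
      rw [val_add, val_single, one_mul]
    · funext j
      by_cases hj : j = i
      · subst hj
        simp only [Pi.add_apply, Pi.sub_apply, Pi.single_eq_same]; omega
      · simp only [Pi.add_apply, Pi.sub_apply, Pi.single_eq_of_ne hj]; omega
  have hrange : Set.range n = minGens S := by
    ext x
    constructor
    · rintro ⟨i, rfl⟩
      refine ⟨(hS _).2 ⟨Pi.single i 1, by rw [val_single, one_mul]⟩, (hn i).ne', ?_⟩
      intro a ha b hb hab
      obtain ⟨u, hu⟩ := (hS a).1 ha
      obtain ⟨v, hv⟩ := (hS b).1 hb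
      by_contra hcon
      push Not at hcon
      by_cases hui : 0 < u i
      · obtain ⟨w, hw, _⟩ := hval_ge u i hui
        omega
      by_cases hvi : 0 < v i
      · obtain ⟨w, hw, _⟩ := hval_ge v i hvi
        omega
      apply hirr i (u + v)
      · simp only [Pi.add_apply]; omega
      · rw [val_add, hu, hv, hab]
    · rintro ⟨hx, hx0, hat⟩
      obtain ⟨a, ha⟩ := (hS x).1 hx
      have hane : ∃ i, 0 < a i := by
        by_contra hcon
        push Not at hcon
        apply hx0
        rw [← ha]
        have : a = 0 := by funext i; have := hcon i; simp only [Pi.zero_apply]; omega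
        rw [this, val_zero]
      obtain ⟨i, hi⟩ := hane
      obtain ⟨b, hb, _⟩ := hval_ge a i hi
      have h1 := hat (n i) ((hS _).2 ⟨Pi.single i 1, by rw [val_single, one_mul]⟩) (val n b)
        ((hS _).2 ⟨b, rfl⟩) (by omega)
      have h2 := hn i
      refine ⟨i, ?_⟩
      rcases h1 with h1 | h1
      · omega
      · omega
  -- strictly increasing enumeration
  set e := Fintype.card ι with he
  let A : Finset ℕ := Finset.univ.image n
  have hA : A.card = e := by
    rw [Finset.card_image_of_injective _ hinj, Finset.card_univ]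
  let m : Fin e → ℕ := A.orderEmbOfFin hA
  have hm : StrictMono m := (A.orderEmbOfFin hA).strictMono
  have hmr : Set.range m = Set.range n := by
    have : Set.range (A.orderEmbOfFin hA) = (A : Set ℕ) := Finset.range_orderEmbOfFin A hA
    rw [show Set.range m = (A : Set ℕ) from this]
    ext x; simp [A]
  have hφ : ∀ i : ι, ∃ j : Fin e, m j = n i := by
    intro i
    have : n i ∈ Set.range m := by rw [hmr]; exact ⟨i, rfl⟩
    exact this
  choose φ hφ using hφ
  have hφinj : Function.Injective φ := by
    intro i j hij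
    apply hinj
    rw [← hφ i, ← hφ j, hij]
  have hφbij : Function.Bijective φ := by
    rw [Fintype.bijective_iff_injective_and_card]
    exact ⟨hφinj, by simp [he]⟩
  let Φ : ι ≃ Fin e := Equiv.ofBijective φ hφbij
  have hΦ : ∀ i, m (Φ i) = n i := hφ
  have hΦs : ∀ j, n (Φ.symm j) = m j := by
    intro j
    rw [← hΦ, Equiv.apply_symm_apply]
  -- transport
  let P : (ι → ℕ) →+ (Fin e → ℕ) :=
    { toFun := fun a j => a (Φ.symm j)
      map_zero' := by funext j; simp
      map_add' := by intro a b; funext j; simp }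
  have hP : ∀ a, ∑ j, P a j * m j = val n a := by
    intro a
    unfold val
    rw [← Equiv.sum_comp Φ.symm (fun i => a i * n i)]
    apply Finset.sum_congr rfl
    intro j _
    rw [hΦs]; rfl
  have hPs : ∀ b : Fin e → ℕ, P (fun i => b (Φ i)) = b := by
    intro b
    funext j
    change b (Φ (Φ.symm j)) = b j
    rw [Equiv.apply_symm_apply]
  let σ : Finset ((Fin e → ℕ) × (Fin e → ℕ)) := ρ.image (fun p => (P p.1, P p.2))
  have hσ : IsPresentation m σ := by
    intro a b
    set c := addConGen (fun u v : Fin e → ℕ => (u, v) ∈ σ) with hcdef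
    constructor
    · intro h
      have hle : c ≤ kerCon m := by
        rw [hcdef]
        apply AddCon.addConGen_le.2
        intro u v huv
        change val m u = val m v
        simp only [σ, Finset.mem_image, Prod.mk.injEq] at huv
        obtain ⟨q, hq, h1, h2⟩ := huv
        have h3 := (hG q.1 q.2).1 (AddConGen.Rel.of _ _ hq)
        unfold val
        rw [← h1, ← h2, hP, hP, h3]
      exact hle h
    · intro h
      have hle : addConGen (fun u v => (u, v) ∈ ρ) ≤ c.comap P P.map_add := by
        apply AddCon.addConGen_le.2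
        intro u v huv
        change c (P u) (P v)
        apply AddConGen.Rel.of
        rw [Finset.mem_image]
        exact ⟨(u, v), huv, rfl⟩
      have h1 : addConGen (fun u v => (u, v) ∈ ρ) (fun i => a (Φ i)) (fun i => b (Φ i)) := by
        rw [hG, ← hP, ← hP, hPs, hPs]
        exact h
      have h2 : c (P (fun i => a (Φ i))) (P (fun i => b (Φ i))) := hle h1
      rw [hPs, hPs] at h2
      exact h2
  have hmpos : ∀ j, 0 < m j := by
    intro j
    rw [← hΦs]; exact hn _
  refine ⟨e, m, hm, by rw [hmr, hrange], ?_, ?_⟩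
  · refine ⟨σ, ?_, hσ⟩
    have h1 := lower_bound m hmpos σ hσ
    have h2 : σ.card ≤ ρ.card := Finset.card_image_le
    omega
  · rintro k ⟨τ, rfl, hτ⟩
    exact lower_bound m hmpos τ hτ


/-- Every numerical semigroup `T` is of the form `S/d` with `S` a complete intersection numerical
semigroup and `d ≥ 1`. -/
theorem result :
    ∀ T : AddSubmonoid ℕ, {x : ℕ | x ∉ T}.Finite →
      ∃ (S : AddSubmonoid ℕ) (d : ℕ), {x : ℕ | x ∉ S}.Finite ∧ IsCompleteIntersection S ∧
        1 ≤ d ∧ ∀ x : ℕ, x ∈ T ↔ d * x ∈ S := by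
  intro T hT
  obtain ⟨S, d, h1, h2, h3, h4⟩ := K_all T hT
  exact ⟨S, d, h1, wci_isCI S h2, h3, h4⟩

end Pool.Agent.Results.MP_325c15_al.CIQuotient
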